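import Mathlib

namespace Pool.Agent.R784.Bell

/-- force the evaluation of an integer (the identity, in continuation form). -/
noncomputable def force {β : Type} (z : ℤ) (k : ℤ → β) : β :=
  Int.rec (fun n => Nat.rec (k (Int.ofNat 0)) (fun m _ => k (Int.ofNat (Nat.succ m))) n)
    (fun n => Nat.rec (k (Int.negSucc 0)) (fun m _ => k (Int.negSucc (Nat.succ m))) n) z

theorem force_eq {β : Type} (z : ℤ) (k : ℤ → β) : force z k = k z := by
  unfold force
  cases z with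
  | ofNat n => cases n <;> rfl
  | negSucc n => cases n <;> rfl

/-- the computation: `a i, b i, c i` are the values at `n - i` of `B, B', B''`;
`c1 .. c4` are the binomial coefficients `C(n,1) .. C(n,4)`. -/
noncomputable def go (x : ℤ) : ℕ → ℤ → ℤ → ℤ → ℤ →
    ℤ → ℤ → ℤ → ℤ → ℤ → ℤ → ℤ → ℤ → ℤ → ℤ → ℤ → ℤ → ℤ → ℤ → ℤ → Bool
  | 0, _, _, _, _, a0, _, _, _, _, b0, _, _, _, _, c0, _, _, _, _ => decide (b0 * b0 - a0 * c0 < 0)
  | k + 1, k1, k2, k3, k4, a0, a1, a2, a3, a4, b0, b1, b2, b3, b4, c0, c1, c2, c3, c4 =>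
    force (a0 + k1 * a1 + k2 * a2 + k3 * a3 + k4 * a4) fun S =>
    force (b0 + k1 * b1 + k2 * b2 + k3 * b3 + k4 * b4) fun S1 =>
    force (c0 + k1 * c1 + k2 * c2 + k3 * c3 + k4 * c4) fun S2 =>
    force (x * S) fun a =>
    force (S + x * S1) fun b =>
    force (2 * S1 + x * S2) fun c =>
    force (k1 + 1) fun k1' =>
    force (k2 + k1) fun k2' =>
    force (k3 + k2) fun k3' =>
    force (k4 + k3) fun k4' =>
    go x k k1' k2' k3' k4' a a0 a1 a2 a3 b b0 b1 b2 b3 c c0 c1 c2 c3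

theorem comp : go (-1855) 718 0 0 0 0 1 0 0 0 0 0 0 0 0 0 0 0 0 0 0 = true := by
  decide +kernel

end Pool.Agent.R784.Bell
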