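import Mathlib

open Finset Polynomial

namespace Pool.Agent.R784.Bell

section Rec

variable {α R : Type*} [DecidableEq α] [CommSemiring R]

/-- sum over the partitions of `s` of the product of the weights of the blocks. -/
def Z (w : ℕ → R) (s : Finset α) : R := ∑ P : Finpartition s, ∏ b ∈ P.parts, w #b

lemma Z_empty (w : ℕ → R) : Z w (∅ : Finset α) = 1 := by
  unfold Z
  let _ : Unique (Finpartition (∅ : Finset α)) :=
    inferInstanceAs (Unique (Finpartition (⊥ : Finset α)))
  have h : (univ : Finset (Finpartition (∅ : Finset α))) = {default} := by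
    ext P
    simp [Unique.eq_default P]
  rw [h, sum_singleton]
  rfl

/-- add the block `insert a t`. -/
def ext {s : Finset α} {a : α} (ha : a ∉ s) {t : Finset α} (ht : t ⊆ s)
    (Q : Finpartition (s \ t)) : Finpartition (insert a s) :=
  Q.extend (b := insert a t) (insert_ne_empty a t)
    (by
      rw [Finset.disjoint_left]
      intro x hx hx2
      rw [mem_sdiff] at hx
      rcases mem_insert.1 hx2 with h | h
      · exact ha (h ▸ hx.1)
      · exact hx.2 h)
    (by
      ext x
      simp only [sup_eq_union, mem_union, mem_sdiff, mem_insert]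
      constructor
      · rintro (h | h | h)
        · exact Or.inr h.1
        · exact Or.inl h
        · exact Or.inr (ht h)
      · rintro (h | h)
        · exact Or.inr (Or.inl h)
        · by_cases hxt : x ∈ t
          · exact Or.inr (Or.inr hxt)
          · exact Or.inl ⟨h, hxt⟩)

lemma ext_parts {s : Finset α} {a : α} (ha : a ∉ s) {t : Finset α} (ht : t ⊆ s)
    (Q : Finpartition (s \ t)) : (ext ha ht Q).parts = insert (insert a t) Q.parts := rfl

lemma notMem_parts {s : Finset α} {a : α} (ha : a ∉ s) {t : Finset α}
    (Q : Finpartition (s \ t)) : insert a t ∉ Q.parts := by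
  intro h
  have := Q.le h (mem_insert_self a t)
  exact ha (mem_sdiff.1 this).1

lemma ext_part {s : Finset α} {a : α} (ha : a ∉ s) {t : Finset α} (ht : t ⊆ s)
    (Q : Finpartition (s \ t)) : (ext ha ht Q).part a = insert a t :=
  Finpartition.part_eq_of_mem _ (by rw [ext_parts]; exact mem_insert_self _ _)
    (mem_insert_self a t)

lemma Z_insert (w : ℕ → R) {a : α} {s : Finset α} (ha : a ∉ s) :
    Z w (insert a s) = ∑ t ∈ s.powerset, w (#t + 1) * Z w (s \ t) := by
  classical
  unfold Z
  rw [← Finset.sum_fiberwise_of_maps_to (s := (univ : Finset (Finpartition (insert a s))))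
    (t := s.powerset) (g := fun P : Finpartition (insert a s) => (P.part a).erase a)]
  · refine sum_congr rfl fun t ht => ?_
    rw [mul_sum]
    have ht' : t ⊆ s := mem_powerset.1 ht
    have hat : a ∉ t := fun h => ha (ht' h)
    symm
    refine sum_bij (fun Q _ => ext ha ht' Q) ?_ ?_ ?_ ?_
    · intro Q _
      simp only [mem_filter, mem_univ, true_and]
      rw [ext_part, erase_insert hat]
    · intro Q₁ _ Q₂ _ h
      have h1 : insert (insert a t) Q₁.parts = insert (insert a t) Q₂.parts := by
        rw [← ext_parts ha ht', ← ext_parts ha ht', h]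
      apply Finpartition.ext
      rw [← erase_insert (notMem_parts ha Q₁), h1, erase_insert (notMem_parts ha Q₂)]
    · intro P hP
      simp only [mem_filter, mem_univ, true_and] at hP
      have haP : a ∈ P.part a := P.mem_part (mem_insert_self a s)
      have hpart : P.part a = insert a t := by rw [← hP, insert_erase haP]
      have hmem : insert a t ∈ P.parts := by
        rw [← hpart]; exact P.part_mem.2 (mem_insert_self a s)
      have hsup : (P.parts.erase (insert a t)).sup id = s \ t := by
        ext x
        rw [mem_sup]
        constructor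
        · rintro ⟨b, hb, hxb⟩
          rw [mem_erase] at hb
          have hxb' : x ∈ b := hxb
          have hx1 : x ∈ insert a s := P.le hb.2 hxb'
          have hx2 : x ∉ insert a t := fun hx2 => hb.1 (P.eq_of_mem_parts hb.2 hmem hxb' hx2)
          rw [mem_insert, not_or] at hx2
          rw [mem_sdiff]
          exact ⟨(mem_insert.1 hx1).resolve_left hx2.1, hx2.2⟩
        · intro hx
          rw [mem_sdiff] at hx
          obtain ⟨b, hb, hxb⟩ := P.exists_mem (mem_insert_of_mem hx.1)
          refine ⟨b, mem_erase.2 ⟨?_, hb⟩, hxb⟩
          rintro rfl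
          rcases mem_insert.1 hxb with h | h
          · exact ha (h ▸ hx.1)
          · exact hx.2 h
      refine ⟨P.ofSubset (erase_subset _ _) hsup, mem_univ _, ?_⟩
      apply Finpartition.ext
      rw [ext_parts]
      simp [insert_erase hmem]
    · intro Q _
      rw [ext_parts, prod_insert (notMem_parts ha Q), card_insert_of_notMem hat]
  · intro P _
    rw [mem_powerset]
    intro x hx
    rw [mem_erase] at hx
    exact (mem_insert.1 (P.part_subset a hx.2)).resolve_left hx.1

/-- the sequence defined by the recurrence. -/
def z (w : ℕ → R) : ℕ → R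
  | 0 => 1
  | n + 1 => ∑ j : Fin (n + 1), (n.choose j : R) * (w (j + 1) * z w (n - j))
decreasing_by omega

lemma Z_eq_z (w : ℕ → R) (s : Finset α) : Z w s = z w #s := by
  induction h : #s using Nat.strong_induction_on generalizing s with
  | _ n ih =>
    rcases s.eq_empty_or_nonempty with rfl | ⟨a, ha⟩
    · subst h
      rw [Z_empty, card_empty, z]
    · have hs : s = insert a (s.erase a) := (insert_erase ha).symm
      have hc : #(s.erase a) + 1 = n := by rw [card_erase_add_one ha, h]
      rw [hs, Z_insert w (notMem_erase a s), ← hc, z]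
      have h1 : ∀ t ∈ (s.erase a).powerset, w (#t + 1) * Z w (s.erase a \ t)
          = w (#t + 1) * z w (#(s.erase a) - #t) := by
        intro t ht
        have ht' := mem_powerset.1 ht
        rw [ih #(s.erase a \ t) (by rw [card_sdiff_of_subset ht']; omega) _ rfl,
          card_sdiff_of_subset ht']
      rw [sum_congr rfl h1, sum_powerset_apply_card (fun k => w (k + 1) * z w (#(s.erase a) - k)),
        Finset.sum_range]
      refine sum_congr rfl fun j _ => ?_
      rw [nsmul_eq_mul]

end Rec

/-- The restricted Stirling number of the second kind: the number of partitions of an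
`n`-element set (`Fin n`) into exactly `k` nonempty blocks, each of size at most `m`. -/
def stirlingR (m n k : ℕ) : ℕ :=
  Fintype.card {P : Finpartition (univ : Finset (Fin n)) // #P.parts = k ∧ ∀ b ∈ P.parts, #b ≤ m}

/-- The restricted Bell polynomial `B_{n,≤m}(x)`. -/
noncomputable def bellR (m n : ℕ) : ℤ[X] :=
  ∑ k ∈ range (n + 1), C (stirlingR m n k : ℤ) * X ^ k

/-- the weight. -/
noncomputable def wt (m j : ℕ) : ℤ[X] := if j ≤ m then X else 0

lemma prod_wt {n : ℕ} (m : ℕ) (P : Finpartition (univ : Finset (Fin n))) :
    ∏ b ∈ P.parts, wt m #b = if ∀ b ∈ P.parts, #b ≤ m then X ^ #P.parts else 0 := by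
  split_ifs with h
  · rw [prod_congr rfl (g := fun _ => (X : ℤ[X])) (fun b hb => by simp [wt, h b hb])]
    simp
  · push Not at h
    obtain ⟨b, hb, hb2⟩ := h
    exact prod_eq_zero hb (by simp [wt, hb2])

lemma bellR_eq (m n : ℕ) : bellR m n = z (wt m) n := by
  have h1 : z (wt m) n = Z (wt m) (univ : Finset (Fin n)) := by rw [Z_eq_z]; simp
  rw [h1, Z, bellR]
  rw [← Finset.sum_fiberwise_of_maps_to (s := (univ : Finset (Finpartition (univ : Finset (Fin n)))))
    (t := range (n + 1)) (g := fun P => #P.parts)]
  · refine sum_congr rfl fun k hk => ?_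
    have h2 : ∀ P ∈ (univ : Finset (Finpartition (univ : Finset (Fin n)))).filter
        (fun P => #P.parts = k), ∏ b ∈ P.parts, wt m #b
        = if ∀ b ∈ P.parts, #b ≤ m then (X : ℤ[X]) ^ k else 0 := by
      intro P hP
      rw [prod_wt, (mem_filter.1 hP).2]
    rw [sum_congr rfl h2, ← sum_filter, sum_const, filter_filter, stirlingR,
      Fintype.card_subtype]
    simp
  · intro P _
    rw [mem_range]
    have := P.card_parts_le_card
    simp at this
    omega

end Pool.Agent.R784.Bell
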